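import Pool.Agent.helper83.OD.Spec

/-!
# Project od:, module V5: the coefficients of `vvx^5`.
-/

set_option autoImplicit false

open Finset PowerSeries

noncomputable section

namespace Pool.Agent.OD

open Pool.Agent.EP

open Classical in
theorem V5_four (hV1 : V1_stmt) (hFRO : FRO_stmt) (j : ℤ) : (vvx ^ (2 ^ 2)).coeff j =
    if ∃ b : ℕ, b.Coprime 6 ∧ j = 4 * (b : ℤ) ^ 2 then 1 else 0 := by
  rw [hFRO 2 vvx j]
  by_cases h : (2 ^ 2 : ℤ) ∣ j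
  · rw [if_pos h, hV1]
    obtain ⟨c, rfl⟩ := h
    rw [Int.mul_ediv_cancel_left _ (by norm_num)]
    have h1 : (∃ u : ℕ, u.Coprime 6 ∧ c = (u : ℤ) ^ 2) ↔
        (∃ b : ℕ, b.Coprime 6 ∧ 2 ^ 2 * c = 4 * (b : ℤ) ^ 2) := by
      constructor
      · rintro ⟨u, hu, rfl⟩
        exact ⟨u, hu, by ring⟩
      · rintro ⟨b, hb, hc⟩
        exact ⟨b, hb, by linarith⟩
    by_cases h2 : ∃ u : ℕ, u.Coprime 6 ∧ c = (u : ℤ) ^ 2
    · rw [if_pos h2, if_pos (h1.1 h2)]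
    · rw [if_neg h2, if_neg (fun h3 => h2 (h1.2 h3))]
  · rw [if_neg h, if_neg]
    rintro ⟨b, -, rfl⟩
    exact h ⟨(b : ℤ) ^ 2, by norm_num⟩

theorem V5 (hV1 : V1_stmt) (hFRO : FRO_stmt) : V5_stmt := by
  classical
  intro N
  have h5 : vvx ^ 5 = vvx * vvx ^ (2 ^ 2) := by ring
  rw [h5, HahnSeries.coeff_mul, Finset.cast_card]
  symm
  refine Finset.sum_bij_ne_zero
    (fun (x : ℕ × ℕ) _ _ => (((x.1 : ℤ) ^ 2, 4 * (x.2 : ℤ) ^ 2) : ℤ × ℤ)) ?_ ?_ ?_ ?_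
  · intro x hx _
    rw [Finset.mem_filter] at hx
    obtain ⟨-, ha, hb, hs⟩ := hx
    rw [Finset.mem_addAntidiagonal]
    refine ⟨?_, ?_, ?_⟩
    · rw [HahnSeries.mem_support, hV1, if_pos ⟨x.1, ha, rfl⟩]
      exact one_ne_zero
    · rw [HahnSeries.mem_support, V5_four hV1 hFRO, if_pos ⟨x.2, hb, rfl⟩]
      exact one_ne_zero
    · change (x.1 : ℤ) ^ 2 + 4 * (x.2 : ℤ) ^ 2 = (N : ℤ)
      exact_mod_cast hs
  · intro x hx _ x' hx' _ h
    have h1 : (x.1 : ℤ) ^ 2 = (x'.1 : ℤ) ^ 2 := (Prod.ext_iff.1 h).1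
    have h2 : 4 * (x.2 : ℤ) ^ 2 = 4 * (x'.2 : ℤ) ^ 2 := (Prod.ext_iff.1 h).2
    have h3 : x.1 ^ 2 = x'.1 ^ 2 := by exact_mod_cast h1
    have h4 : x.2 ^ 2 = x'.2 ^ 2 := by
      have : (x.2 : ℤ) ^ 2 = (x'.2 : ℤ) ^ 2 := by linarith
      exact_mod_cast this
    exact Prod.ext (Nat.pow_left_injective (n := 2) (by norm_num) h3)
      (Nat.pow_left_injective (n := 2) (by norm_num) h4)
  · rintro ⟨i, j⟩ hij _
    rw [Finset.mem_addAntidiagonal] at hij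
    obtain ⟨hi, hj, hs⟩ := hij
    rw [HahnSeries.mem_support, hV1] at hi
    rw [HahnSeries.mem_support, V5_four hV1 hFRO] at hj
    simp only at hs hi hj
    have hi' : ∃ u : ℕ, u.Coprime 6 ∧ i = (u : ℤ) ^ 2 := by
      by_contra h
      rw [if_neg h] at hi
      exact hi rfl
    have hj' : ∃ b : ℕ, b.Coprime 6 ∧ j = 4 * (b : ℤ) ^ 2 := by
      by_contra h
      rw [if_neg h] at hj
      exact hj rfl
    obtain ⟨a, ha, rfl⟩ := hi'
    obtain ⟨b, hb, rfl⟩ := hj'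
    have hs' : a ^ 2 + 4 * b ^ 2 = N := by exact_mod_cast hs
    refine ⟨(a, b), ?_, one_ne_zero, rfl⟩
    rw [Finset.mem_filter, Finset.mem_product, Finset.mem_range, Finset.mem_range]
    refine ⟨⟨?_, ?_⟩, ha, hb, hs'⟩
    · change a < N + 1
      nlinarith [Nat.zero_le a, Nat.zero_le b]
    · change b < N + 1
      nlinarith [Nat.zero_le a, Nat.zero_le b]
  · intro x hx _
    rw [Finset.mem_filter] at hx
    obtain ⟨-, ha, hb, hs⟩ := hx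
    simp only
    rw [hV1, if_pos ⟨x.1, ha, rfl⟩, V5_four hV1 hFRO, if_pos ⟨x.2, hb, rfl⟩, mul_one]

end Pool.Agent.OD
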